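import Mathlib
import Pool.Agent.H16.Rich

set_option autoImplicit false

namespace Pool.Agent.Results.MP_9b64ae_co.Counter

open Pool.Agent.H16.Rich

theorem result : ¬ ∀ (u : ℕ → Bool) (k : ℕ), Sturmian u → 1 ≤ k → Rich (S^[k] u) :=
  fun h => m2_not (h m2 6 m2_sturm (by norm_num))

end Pool.Agent.Results.MP_9b64ae_co.Counter
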